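import Mathlib

namespace Pool.Agent.Results.MP_7100ec_nt.NotMonotone

/-- The Gauss map `y ↦ {1 / y}`. -/
noncomputable def gauss (y : ℝ) : ℝ := Int.fract y⁻¹

/-- `a` is the `n`-th partial quotient (`n ≥ 1`) of `y`, and it is defined. -/
def IsPQ (n : ℕ) (y : ℝ) (a : ℤ) : Prop :=
  gauss^[n - 1] y ≠ 0 ∧ a = ⌊(gauss^[n - 1] y)⁻¹⌋

/-- The value of the finite continued fraction `[a_1, ..., a_n]`. -/
noncomputable def cfVal : List ℤ → ℝ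
  | [] => 0
  | a :: l => ((a : ℝ) + cfVal l)⁻¹

/-- `[f 1, ..., f n]`. -/
noncomputable def conv (f : ℕ → ℤ) (n : ℕ) : ℝ := cfVal ((List.range n).map fun i => f (i + 1))

/-- The terms `c_1, b_1, ..., c_N, b_N` of the procedure started at `x` are all defined and are
given by `c` and `b`. -/
def Runs (x : ℝ) (N : ℕ) (c b : ℕ → ℤ) : Prop :=
  IsPQ 1 x (c 1 - 1) ∧ (∀ n, 1 ≤ n → n ≤ N → IsPQ n (x - conv c n) (b n)) ∧
    ∀ n, 1 ≤ n → n + 1 ≤ N → IsPQ (n + 1) (x - conv b n) (c (n + 1) - 1)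

theorem pq1 (y : ℝ) (a : ℤ) (h0 : y ≠ 0) (h1 : (a : ℝ) ≤ y⁻¹) (h2 : y⁻¹ < a + 1) : IsPQ 1 y a :=
  ⟨h0, (Int.floor_eq_iff.2 ⟨h1, h2⟩).symm⟩

theorem pq2 (y z : ℝ) (a k : ℤ) (hz : y⁻¹ = k + z) (h0 : 0 < z) (h0' : z < 1)
    (h1 : (a : ℝ) ≤ z⁻¹) (h2 : z⁻¹ < a + 1) : IsPQ 2 y a := by
  have : gauss y = z := by
    rw [gauss, hz, Int.fract_intCast_add, Int.fract_eq_self.2 ⟨h0.le, h0'⟩]
  have h := pq1 z a h0.ne' h1 h2
  unfold IsPQ at h ⊢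
  simpa [this] using h

/-- For `x = 75 / 377` the procedure gives `c_1 = 6, b_1 = 30, c_2 = 27, b_2 = 28`. -/
theorem result : ∃ x : ℝ, 0 < x ∧ x ≤ 1 ∧ ∃ c b : ℕ → ℤ, Runs x 2 c b ∧ b 2 < b 1 := by
  refine ⟨75 / 377, by norm_num, by norm_num, fun n => if n = 1 then 6 else 27,
    fun n => if n = 1 then 30 else 28, ⟨?_, ?_, ?_⟩, by norm_num⟩
  · apply pq1 <;> norm_num
  · intro n h1 h2
    interval_cases n
    · apply pq1 <;> norm_num [conv, cfVal, List.range_succ]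
    · apply pq2 _ (71 / 2046) _ 30 <;> norm_num [conv, cfVal, List.range_succ]
  · intro n h1 h2
    obtain rfl : n = 1 := by omega
    apply pq2 _ (72 / 1873) _ 6 <;> norm_num [conv, cfVal, List.range_succ]

end Pool.Agent.Results.MP_7100ec_nt.NotMonotone
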